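import Pool.Agent.Helper87.VM.Lib2
import Pool.Agent.Helper8.VM.XEX

/-!
Morphisms of small degree to the quotient are vertical (module VERT of `MP_39dd1a_ag`).
-/

set_option autoImplicit false

namespace Pool.Agent.Helper87.VM

open MvPolynomial Pool.Agent.Helper48.VMRT

section vert

variable {G κB κY : Type} [Group G]

theorem vert_homE_of_biHom {k l : ℕ} {p : MvPolynomial (κB ⊕ κY) ℂ} (h : BiHom k l p) :
    HomE (k + l) p := by
  intro a x
  have h1 := h a a (fun i => x (Sum.inl i)) (fun j => x (Sum.inr j))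
  have h2 : (Sum.elim (a • fun i => x (Sum.inl i)) (a • fun j => x (Sum.inr j)) :
      κB ⊕ κY → ℂ) = a • x := by
    funext i
    cases i <;> rfl
  have h3 : (Sum.elim (fun i => x (Sum.inl i)) (fun j => x (Sum.inr j)) : κB ⊕ κY → ℂ) = x := by
    funext i
    cases i <;> rfl
  rw [h2, h3] at h1
  rw [h1, pow_add]

/-- A finite spanning family of the invariant forms of bidegree `(k, l)`. -/
theorem vert_span2 [Fintype κB] [Fintype κY] (ρB : G →* ((κB → ℂ) →ₗ[ℂ] (κB → ℂ)))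
    (ρY : G →* ((κY → ℂ) →ₗ[ℂ] (κY → ℂ))) (k l : ℕ) :
    ∃ (n : ℕ) (f : Fin n → MvPolynomial (κB ⊕ κY) ℂ), (∀ i, BiHom k l (f i)) ∧
      (∀ i, BiInv ρB ρY (f i)) ∧ ∀ p : MvPolynomial (κB ⊕ κY) ℂ, BiHom k l p →
        BiInv ρB ρY p → p ∈ Submodule.span ℂ (Set.range f) := by
  classical
  let W : Submodule ℂ (MvPolynomial (κB ⊕ κY) ℂ) :=
    { carrier := {p | BiHom k l p ∧ BiInv ρB ρY p}
      zero_mem' := ⟨fun a c b y => by simp, fun g b y => by simp⟩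
      add_mem' := fun {p q} hp hq =>
        ⟨fun a c b y => by rw [map_add, map_add, hp.1, hq.1]; ring,
          fun g b y => by rw [map_add, map_add, hp.2, hq.2]⟩
      smul_mem' := fun r p hp =>
        ⟨fun a c b y => by rw [smul_eval, smul_eval, hp.1]; ring,
          fun g b y => by rw [smul_eval, smul_eval, hp.2]⟩ }
  have hW : W ≤ homogeneousSubmodule (κB ⊕ κY) ℂ (k + l) := fun p hp =>
    (mem_homogeneousSubmodule (k + l) p).2 (isHomogeneous_of_homE (vert_homE_of_biHom hp.1))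
  have hfin : Module.Finite ℂ (homogeneousSubmodule (κB ⊕ κY) ℂ (k + l)) :=
    Module.Finite.iff_fg.2 (homogeneousSubmodule_fg (κB ⊕ κY) ℂ (k + l))
  have hWf : FiniteDimensional ℂ W := Submodule.finiteDimensional_of_le hW
  obtain ⟨n, s, hs⟩ :=
    Submodule.fg_iff_exists_fin_generating_family.1 (Module.Finite.iff_fg.1 hWf)
  have hmem : ∀ i, s i ∈ W := by
    intro i
    rw [← hs]
    exact Submodule.subset_span ⟨i, rfl⟩
  refine ⟨n, s, fun i => (hmem i).1, fun i => (hmem i).2, fun p h1 h2 => ?_⟩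
  have hp : p ∈ W := ⟨h1, h2⟩
  rwa [← hs] at hp

theorem vert_evl (b : κB → ℂ) (y : κY → ℂ) (p : MvPolynomial κB ℂ) :
    eval (Sum.elim b y) (aeval (fun i => (X (Sum.inl i) : MvPolynomial (κB ⊕ κY) ℂ)) p) =
      eval b p := by
  rw [eval_aeval]
  congr 2
  funext i
  simp [ev]

theorem vert_evr (b : κB → ℂ) (y : κY → ℂ) (p : MvPolynomial κY ℂ) :
    eval (Sum.elim b y) (aeval (fun i => (X (Sum.inr i) : MvPolynomial (κB ⊕ κY) ℂ)) p) =
      eval y p := by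
  rw [eval_aeval]
  congr 2
  funext i
  simp [ev]

/-- Invariant forms of bidegree `(k, k)` have no common zero. -/
theorem vert_bump (hB0 : ST_BUMP0) [Fintype G] [Fintype κB] [Fintype κY] {k : ℕ}
    {ρB : G →* ((κB → ℂ) →ₗ[ℂ] (κB → ℂ))} {ρY : G →* ((κY → ℂ) →ₗ[ℂ] (κY → ℂ))}
    {B : Set (κB → ℂ)} (hfree : FreeAct ρB B) (hkG : 2 * Fintype.card G ≤ k + 1)
    {b : κB → ℂ} (hb : b ∈ B) (hb0 : b ≠ 0) {y : κY → ℂ} (hy : y ≠ 0) :
    ∃ p : MvPolynomial (κB ⊕ κY) ℂ, BiHom k k p ∧ BiInv ρB ρY p ∧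
      eval (Sum.elim b y) p ≠ 0 := by
  classical
  obtain ⟨q, hq1, hq2, hq3⟩ := hB0 G κB ρB B k hfree (by omega) b hb hb0
  obtain ⟨j, hj⟩ := Function.ne_iff.1 hy
  have hj' : y j ≠ 0 := hj
  let Φ : MvPolynomial (κB ⊕ κY) ℂ := ∑ g : G,
    aeval (fun i => (X (Sum.inl i) : MvPolynomial (κB ⊕ κY) ℂ)) (pull (ρB g) q) *
      (aeval (fun i => (X (Sum.inr i) : MvPolynomial (κB ⊕ κY) ℂ))
        (linp ((LinearMap.proj j : (κY → ℂ) →ₗ[ℂ] ℂ).comp (ρY g)))) ^ k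
  have hΦ : ∀ (b : κB → ℂ) (y : κY → ℂ), eval (Sum.elim b y) Φ =
      ∑ g : G, eval (ρB g b) q * (ρY g y j) ^ k := by
    intro b y
    simp only [Φ, map_sum, map_mul, map_pow, vert_evl, vert_evr, eval_pull, eval_linp]
    rfl
  refine ⟨Φ, ?_, ?_, ?_⟩
  · intro a c b y
    rw [hΦ, hΦ, Finset.mul_sum]
    refine Finset.sum_congr rfl fun g _ => ?_
    rw [map_smul, map_smul, hq1, Pi.smul_apply, smul_eq_mul, mul_pow]
    ring
  · intro h b y
    rw [hΦ, hΦ, ← Equiv.sum_comp (Equiv.mulRight h) (fun g => eval (ρB g b) q * (ρY g y j) ^ k)]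
    refine Finset.sum_congr rfl fun g _ => ?_
    rw [Equiv.coe_mulRight, map_mul, map_mul, Module.End.mul_apply, Module.End.mul_apply]
  · rw [hΦ, Finset.sum_eq_single (1 : G)]
    · rw [map_one, map_one, Module.End.one_apply, Module.End.one_apply, hq2, one_mul]
      exact pow_ne_zero _ hj'
    · intro g _ hg
      rw [hq3 g hg, zero_mul]
    · intro h
      exact absurd (Finset.mem_univ _) h

/-- Proportionality of vectors with proportional pure powers. -/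
theorem vert_root {m r : ℕ} (hr : 1 ≤ r) {x y : Fin m → ℂ} {c : ℂ} (hx : x ≠ 0)
    (h : ∀ I : Fin r → Fin m, ∏ j, x (I j) = c * ∏ j, y (I j)) : ∃ γ : ℂ, y = γ • x := by
  obtain ⟨i0, hi0⟩ := Function.ne_iff.1 hx
  have hi : x i0 ≠ 0 := hi0
  obtain ⟨r', rfl⟩ : ∃ r', r = r' + 1 := ⟨r - 1, by omega⟩
  have h1 : ∀ i, x i * x i0 ^ r' = c * (y i * y i0 ^ r') := by
    intro i
    have := h (Fin.cons i (fun _ => i0))
    simpa [Fin.prod_univ_succ] using this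
  have h2 := h1 i0
  have h3 : c * (y i0 * y i0 ^ r') ≠ 0 := by
    rw [← h2]
    exact mul_ne_zero hi (pow_ne_zero _ hi)
  have h4 : c * y i0 ^ r' ≠ 0 := by
    intro e
    apply h3
    have : c * (y i0 * y i0 ^ r') = y i0 * (c * y i0 ^ r') := by ring
    rw [this, e, mul_zero]
  refine ⟨y i0 / x i0, funext fun i => ?_⟩
  rw [Pi.smul_apply, smul_eq_mul, div_mul_eq_mul_div, eq_div_iff hi]
  apply mul_left_cancel₀ h4
  have h5 := h1 i
  linear_combination (-x i0) * h5 + x i * h2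

/-- A linear combination of the components of a vector of binary forms. -/
noncomputable def vertL {N : ℕ} (l : (Fin (N + 1) → ℂ) →ₗ[ℂ] ℂ)
    (c : Fin (N + 1) → Polynomial ℂ) : Polynomial ℂ :=
  ∑ i, Polynomial.C (l (Pi.single i 1)) * c i

theorem vert_hevL {N e : ℕ} (l : (Fin (N + 1) → ℂ) →ₗ[ℂ] ℂ) (c : Fin (N + 1) → Polynomial ℂ)
    (s t : ℂ) : hev e (vertL l c) s t = l (hevv e c s t) := by
  rw [vertL, hev_sum]
  simp only [hev_C_mul]
  conv_rhs => rw [← Finset.univ_sum_single (hevv e c s t), map_sum]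
  refine Finset.sum_congr rfl fun i _ => ?_
  have : (Pi.single i (hevv e c s t i) : Fin (N + 1) → ℂ) =
      hevv e c s t i • Pi.single i 1 := by
    rw [← Pi.single_smul]; simp
  rw [this, map_smul, smul_eq_mul, mul_comm]
  rfl

theorem vert_degL {N e : ℕ} (l : (Fin (N + 1) → ℂ) →ₗ[ℂ] ℂ) (c : Fin (N + 1) → Polynomial ℂ)
    (h : ∀ i, (c i).natDegree ≤ e) : (vertL l c).natDegree ≤ e := by
  rw [vertL]
  refine Polynomial.natDegree_sum_le_of_forall_le _ _ fun i _ => ?_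
  exact (Polynomial.natDegree_C_mul_le _ _).trans (h i)

end vert

theorem vert_main (hB0 : ST_BUMP0) (hB : ST_BUMP) (hF1 : ST_FAC1) (hF2 : ST_FAC2)
    {G κB κY : Type} [Group G] [Fintype G] [Fintype κB] [Fintype κY] {N w k t e : ℕ}
    {ρB : G →* ((κB → ℂ) →ₗ[ℂ] (κB → ℂ))} {ρY : G →* ((κY → ℂ) →ₗ[ℂ] (κY → ℂ))}
    {B : Set (κB → ℂ)} {Y : Set (κY → ℂ)} {E : Fin (N + 1) → MvPolynomial (κB ⊕ κY) ℂ}
    (hk : 1 ≤ k) (hkG : 2 * Fintype.card G ≤ k + 1) (ht : e + 1 < t)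
    (hfree : FreeAct ρB B) (xd : XD w (k * t) k ρB B ρY Y E)
    (hYact : ∀ g, ∀ y ∈ Y, ρY g y ∈ Y) (hYcone : ∀ a : ℂ, ∀ y ∈ Y, a • y ∈ Y)
    (c : Fin (N + 1) → Polynomial ℂ) (hc : Mor e c)
    (hX : ∀ s t : ℂ, hevv e c s t ∈ XS E B Y) :
    ∃ b ∈ B, b ≠ 0 ∧ ∀ s t : ℂ, (s, t) ≠ (0, 0) → ∃ y ∈ Y, hevv e c s t = ev2 E b y := by
  classical
  obtain ⟨m, A, hA1, hA2, hA3⟩ := xex_span ρB k
  obtain ⟨n, P, hP1, hP2, hP3⟩ := vert_span2 ρB ρY k k
  obtain ⟨hBa, hBb, -⟩ := hB G κB ρB B k hfree hk hkG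
  -- (a)
  have ha : ∀ b ∈ B, b ≠ 0 → ev A b ≠ 0 := by
    intro b hb hb0 h0
    obtain ⟨p, hp1, hp2, hp3⟩ := hBa b hb hb0
    obtain ⟨d, hd⟩ := (Submodule.mem_span_range_iff_exists_fun ℂ).1 (hA3 p hp1 hp2)
    apply hp3
    rw [← hd, map_sum]
    refine Finset.sum_eq_zero fun i _ => ?_
    have : eval b (A i) = 0 := congrFun h0 i
    rw [smul_eval, this, mul_zero]
  -- (b)
  have hbN : ∀ b ∈ B, b ≠ 0 → ∀ y : κY → ℂ, y ≠ 0 →
      (fun j => eval (Sum.elim b y) (P j)) ≠ 0 := by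
    intro b hb hb0 y hy0 h0
    obtain ⟨p, hp1, hp2, hp3⟩ := vert_bump (ρY := ρY) hB0 hfree hkG hb hb0 hy0
    obtain ⟨d, hd⟩ := (Submodule.mem_span_range_iff_exists_fun ℂ).1 (hP3 p hp1 hp2)
    apply hp3
    rw [← hd, map_sum]
    refine Finset.sum_eq_zero fun i _ => ?_
    have : eval (Sum.elim b y) (P i) = 0 := congrFun h0 i
    rw [smul_eval, this, mul_zero]
  obtain ⟨r, rfl⟩ : ∃ r, t = r + 1 := ⟨t - 1, by omega⟩
  have hr : 1 ≤ r := by omega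
  -- (c)
  have hlin : ∀ z : (Fin r → Fin (m + 1)) × Fin n, ∃ l : (Fin (N + 1) → ℂ) →ₗ[ℂ] ℂ,
      ∀ b y, l (ev2 E b y) = (∏ i, eval b (A (z.1 i))) * eval (Sum.elim b y) (P z.2) := by
    intro z
    let Φ : MvPolynomial (κB ⊕ κY) ℂ :=
      aeval (fun i => (X (Sum.inl i) : MvPolynomial (κB ⊕ κY) ℂ)) (∏ i, A (z.1 i)) * P z.2
    have hΦ : ∀ b y, eval (Sum.elim b y) Φ =
        (∏ i, eval b (A (z.1 i))) * eval (Sum.elim b y) (P z.2) := by
      intro b y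
      simp only [Φ]
      rw [map_mul, vert_evl, map_prod]
    have h1 : BiHom (k * (r + 1)) k Φ := by
      intro a c b y
      rw [hΦ, hΦ, hP1, Finset.prod_congr rfl fun i _ => hA1 (z.1 i) a b,
        Finset.prod_mul_distrib, Finset.prod_const, Finset.card_univ, Fintype.card_fin]
      ring
    have h2 : BiInv ρB ρY Φ := by
      intro g b y
      rw [hΦ, hΦ, hP2, Finset.prod_congr rfl fun i _ => hA2 (z.1 i) g b]
    obtain ⟨l, hl⟩ := xd.lin Φ h1 h2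
    exact ⟨l, fun b y => by rw [hl, hΦ]⟩
  choose l hl using hlin
  set u : (Fin r → Fin (m + 1)) × Fin n → Polynomial ℂ := fun z => vertL (l z) c with hu
  have hue : ∀ (s t : ℂ) (b : κB → ℂ) (y : κY → ℂ), hevv e c s t = ev2 E b y →
      hevv e u s t = seg (fun I : Fin r → Fin (m + 1) => ∏ i, ev A b (I i))
        (fun j => eval (Sum.elim b y) (P j)) := by
    intro s t b y h
    funext z
    rw [hevv, hu]
    simp only
    rw [vert_hevL, h, hl]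
    rfl
  have hT : k * (r + 1) ≠ 0 := by positivity
  have hk0 : k ≠ 0 := by omega
  have hne : ∀ (s t : ℂ), (s, t) ≠ (0, 0) → ∀ (b : κB → ℂ) (y : κY → ℂ),
      hevv e c s t = ev2 E b y → b ≠ 0 ∧ y ≠ 0 := by
    intro s t hst b y h
    have h0 := hc.ne s t hst
    rw [h] at h0
    constructor
    · rintro rfl
      apply h0
      have := ev2_smul_left xd.hom (0 : ℂ) (0 : κB → ℂ) y
      rwa [zero_pow hT, zero_smul, zero_smul] at this
    · rintro rfl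
      apply h0
      have := ev2_smul_right xd.hom (0 : ℂ) b (0 : κY → ℂ)
      rwa [zero_pow hk0, zero_smul, zero_smul] at this
  have hprod : ∀ b : κB → ℂ, ev A b ≠ 0 →
      (fun I : Fin r → Fin (m + 1) => ∏ i, ev A b (I i)) ≠ 0 := by
    intro b hb h0
    obtain ⟨i, hi⟩ := Function.ne_iff.1 hb
    have h1 := congrFun h0 (fun _ => i)
    simp only [Finset.prod_const, Pi.zero_apply] at h1
    exact pow_ne_zero _ hi h1
  have huM : Mor e u := by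
    refine ⟨fun z => vert_degL _ _ hc.deg, fun s t hst => ?_⟩
    obtain ⟨b, hb, y, hy, h⟩ := hX s t
    obtain ⟨hb0, hy0⟩ := hne s t hst b y h
    rw [hue s t b y h]
    exact seg_ne_zero (hprod b (ha b hb hb0)) (hbN b hb hb0 y hy0)
  obtain ⟨d₁, d₂, p, q, hd, hpM, hqM, hpq⟩ := hF1 _ _ e u huM (by
    intro s t
    obtain ⟨b, hb, y, hy, h⟩ := hX s t
    exact ⟨_, _, hue s t b y h⟩)
  -- the vector `p`
  have hpA : ∀ (s t : ℂ), (s, t) ≠ (0, 0) → ∀ b ∈ B, ∀ y ∈ Y, hevv e c s t = ev2 E b y →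
      ∃ γ : ℂ, hevv d₁ p s t = γ • (fun I : Fin r → Fin (m + 1) => ∏ i, ev A b (I i)) := by
    intro s t hst b hb y hy h
    have h1 : hevv e u s t = seg (hevv d₁ p s t) (hevv d₂ q s t) := by
      funext z
      obtain ⟨i, j⟩ := z
      rw [hevv, hpq, ← hd, hev_mul (hpM.deg i) (hqM.deg j)]
      rfl
    have h2 := hue s t b y h
    have h3 := huM.ne s t hst
    rw [h1] at h2 h3
    rw [h2] at h3
    obtain ⟨γ, -, h4, -⟩ := seg_eq_seg h2.symm h3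
    exact ⟨γ, h4⟩
  have hroot : ∀ (γ : ℂ) (x : Fin (m + 1) → ℂ), ∃ v : Fin (m + 1) → ℂ,
      ∀ I : Fin r → Fin (m + 1), γ * ∏ i, x (I i) = ∏ i, v (I i) := by
    intro γ x
    obtain ⟨z, hz⟩ := IsAlgClosed.exists_pow_nat_eq γ (show 0 < r by omega)
    refine ⟨z • x, fun I => ?_⟩
    simp only [Pi.smul_apply, smul_eq_mul, Finset.prod_mul_distrib, Finset.prod_const,
      Finset.card_univ, Fintype.card_fin, hz]
  have hp1 : ∀ s t : ℂ, (s, t) ≠ (0, 0) → ∃ v : Fin (m + 1) → ℂ, ∀ I : Fin r → Fin (m + 1),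
      hevv d₁ p s t I = ∏ j, v (I j) := by
    intro s t hst
    obtain ⟨b, hb, y, hy, h⟩ := hX s t
    obtain ⟨γ, hγ⟩ := hpA s t hst b hb y hy h
    obtain ⟨v, hv⟩ := hroot γ (ev A b)
    exact ⟨v, fun I => by rw [hγ, ← hv]; rfl⟩
  obtain ⟨e₁, q₁, hde, hq₁, hpq₁⟩ := hF2 _ r d₁ p hr hpM (by
    intro s t
    by_cases hst : (s, t) = (0, 0)
    · obtain ⟨v, hv⟩ := hp1 1 0 (by simp)
      obtain ⟨v', hv'⟩ := hroot ((0 : ℂ) ^ d₁) v
      refine ⟨v', fun I => ?_⟩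
      rw [← hv', ← hv]
      obtain ⟨rfl, rfl⟩ := Prod.mk.inj hst
      have := hev_smul_smul d₁ (p I) 0 1 0
      rw [mul_zero, zero_mul] at this
      exact this
    · exact hp1 s t hst)
  have he₁ : e₁ = 0 := by
    by_contra h0
    have h1 : r * 1 ≤ r * e₁ := Nat.mul_le_mul_left r (by omega)
    omega
  subst he₁
  rw [mul_zero] at hde
  subst hde
  let q₀ : Fin (m + 1) → ℂ := fun i => (q₁ i).coeff 0
  have hq₀ : ∀ s t : ℂ, hevv 0 q₁ s t = q₀ := by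
    intro s t
    funext i
    simp [hevv, hev, q₀]
  have hq₀0 : q₀ ≠ 0 := by
    rw [← hq₀ 1 0]
    exact hq₁.ne 1 0 (by simp)
  have hp₀ : ∀ (s t : ℂ) (I : Fin r → Fin (m + 1)), hevv 0 p s t I = ∏ j, q₀ (I j) := by
    intro s t I
    have h1 := hev_prod (Finset.univ : Finset (Fin r)) (e := 0) (p := fun j => q₁ (I j))
      (fun j _ => hq₁.deg (I j)) s t
    rw [zero_mul, ← hpq₁ I] at h1
    rw [hevv, h1]
    exact Finset.prod_congr rfl fun j _ => congrFun (hq₀ s t) (I j)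
  have hAq : ∀ (s t : ℂ), (s, t) ≠ (0, 0) → ∀ b ∈ B, ∀ y ∈ Y, hevv e c s t = ev2 E b y →
      ∃ γ : ℂ, ev A b = γ • q₀ := by
    intro s t hst b hb y hy h
    obtain ⟨γ, hγ⟩ := hpA s t hst b hb y hy h
    refine vert_root (c := γ) hr hq₀0 fun I => ?_
    rw [← hp₀ s t I, hγ]
    rfl
  obtain ⟨b₀, hb₀, y₀, hy₀, h₀⟩ := hX 1 0
  obtain ⟨hb₀0, hy₀0⟩ := hne 1 0 (by simp) b₀ y₀ h₀
  obtain ⟨γ₀, hγ₀⟩ := hAq 1 0 (by simp) b₀ hb₀ y₀ hy₀ h₀
  have hγ₀0 : γ₀ ≠ 0 := by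
    rintro rfl
    rw [zero_smul] at hγ₀
    exact ha b₀ hb₀ hb₀0 hγ₀
  refine ⟨b₀, hb₀, hb₀0, fun s t hst => ?_⟩
  obtain ⟨b, hb, y, hy, h⟩ := hX s t
  obtain ⟨hb0, hy0⟩ := hne s t hst b y h
  obtain ⟨γ, hγ⟩ := hAq s t hst b hb y hy h
  have h1 : ev A b = (γ / γ₀) • ev A b₀ := by
    rw [hγ, hγ₀, smul_smul, div_mul_cancel₀ _ hγ₀0]
  have h2 : ∃ (g : G) (a : ℂ), b = a • ρB g b₀ := by
    by_contra hcon
    push Not at hcon
    obtain ⟨p', hp'1, hp'2, hp'3, hp'4⟩ := hBb b hb hb0 b₀ hb₀ hb₀0 hcon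
    obtain ⟨d, hd'⟩ := (Submodule.mem_span_range_iff_exists_fun ℂ).1 (hA3 p' hp'1 hp'2)
    apply hp'3
    have h3 : ∀ x : κB → ℂ, eval x p' = ∑ i, d i * ev A x i := by
      intro x
      rw [← hd', map_sum]
      exact Finset.sum_congr rfl fun i _ => by rw [smul_eval]; rfl
    rw [h3] at hp'4
    rw [h3, h1]
    have h4 : ∑ i, d i * ((γ / γ₀) • ev A b₀) i = (γ / γ₀) * ∑ i, d i * ev A b₀ i := by
      rw [Finset.mul_sum]
      refine Finset.sum_congr rfl fun i _ => ?_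
      rw [Pi.smul_apply, smul_eq_mul]
      ring
    rw [h4, hp'4, mul_zero]
  obtain ⟨g, a, hga⟩ := h2
  refine ⟨a ^ (r + 1) • ρY g⁻¹ y, hYcone _ _ (hYact _ y hy), ?_⟩
  rw [h, ev2_smul_right xd.hom, hga, ev2_smul_left xd.hom, ← pow_mul, mul_comm (r + 1) k]
  congr 1
  have h5 : ρY g (ρY g⁻¹ y) = y := by
    rw [← Module.End.mul_apply, ← map_mul, mul_inv_cancel, map_one, Module.End.one_apply]
  funext i
  have h6 := xd.inv i g b₀ (ρY g⁻¹ y)
  rw [h5] at h6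
  exact h6

theorem st_VERT (hB0 : ST_BUMP0) (hB : ST_BUMP) (hF1 : ST_FAC1) (hF2 : ST_FAC2) : ST_VERT := by
  intro D hD e c he hc hX
  refine vert_main hB0 hB hF1 hF2 hD.kpos hD.kG (w := D.w) (t := D.t) ?_ hD.Bfree hD.xd hD.Yact
    (fun a y hy => yc_cone a hy) c hc hX
  have := hD.tbig
  have h2 : D.dg = D.k * D.a := rfl
  omega

end Pool.Agent.Helper87.VM
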